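import Pool.Agent.Y228.HX.Stm2

set_option autoImplicit false

/-! # Project HX: far away the terms are killed -/

namespace Pool.Agent.Y188.HX

open MvPolynomial Filter Pool.Agent.W425.SV Pool.Agent.TH216.MF Pool.Agent.Y228.HX
open Pool.Agent.W803.SM (summable_half)

variable {r N : ℕ}

/-- The first part of the main theorem with weights. -/
theorem coreFar (q : ℕ) (hq : 2 ≤ q) (v : Fin r → Fin N → ℕ) (p : Polynomial ℂ) (θ : Fin r → ℤ)
    (D : ℤ) (w0 : Fin r → ℕ) (hw0 : ∀ j, (w0 j : ℤ) = D - θ j)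
    (hrel : RelG v (Kil1 v) (KilU v θ) p) (k : MvPolynomial (Fin r) ℂ) (hk : Kern q v k)
    (T0 : ℂ) (hT0 : T0 ≠ 0) (hp0 : p ≠ 0) :
    ∃ Q : Polynomial ℂ, Q.eval T0 ≠ 0 ∧ ∀ w, ∃ m0 : ℕ, ∀ m, m0 ≤ m →
      Z q v (k * (um w0 ^ m * w) * (Polynomial.aeval (tau r) Q * (tau r - C T0) ^
        p.rootMultiplicity ((-Real.log ‖T0‖ / Real.log q : ℝ) : ℂ))) := by
  classical
  obtain ⟨G, hG, hGG⟩ := exG v
  set s0 : ℂ := ((-Real.log ‖T0‖ / Real.log q : ℝ) : ℂ) with hs0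
  set μ : ℕ := p.rootMultiplicity s0 with hμ
  obtain ⟨p1, hpp, hnd⟩ := Polynomial.exists_eq_pow_rootMultiplicity_mul_and_not_dvd p hp0 s0
  have hp1 : p1.eval s0 ≠ 0 := fun h => hnd (Polynomial.dvd_iff_isRoot.2 h)
  obtain ⟨M, h, hh⟩ := stepBM q hq v G hGG (Kil1 v) (KilU v θ) p hrel T0 hT0 μ p1 hpp hp1
  obtain ⟨E, Q, hQ, hQI⟩ := stepC q hq v T0
  obtain ⟨Rt, c, hRt, hF⟩ := FG_one (r := r) q G M hq hG
  set u : MvPolynomial (Fin r) ℂ := (tau r - C T0) * h with hu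
  set e0 : MvPolynomial (Fin r) ℂ := (tau r - C T0) ^ μ with he0
  -- one step
  have h1 : ∀ w, ∃ m0 : ℕ, ∀ m, m0 ≤ m → Z q v (k * (um w0 ^ m * w) * (e0 * (1 - u))) := by
    intro w
    have h2 : ∀ ρ : Fin r → ℂ, ρ ∈ (Fintype.piFinset fun _ : Fin r => Rt) → ∃ m0 : ℕ,
        ∀ m, m0 ≤ m → ∀ᶠ t : ℤ in atTop,
        HasReg (gen q v (act r (k * (um w0 ^ m * w) *
          ((1 - u) * (e0 * ∏ j, dj q G M j))) (FG ρ)) ∅ t) 0 := by
      intro ρ hρ
      exact kill_IdU hq hG θ D w0 hw0 hk hh ρ (fun j => hRt _ (Fintype.mem_piFinset.1 hρ j)) w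
    choose! m1 hm1 using h2
    refine ⟨∑ ρ ∈ (Fintype.piFinset fun _ : Fin r => Rt), m1 ρ, fun m hm => ?_⟩
    have h3 := (eventually_all_finset (Fintype.piFinset fun _ : Fin r => Rt)).2
      fun ρ hρ => hm1 ρ hρ m ((Finset.single_le_sum (f := m1) (fun _ _ => Nat.zero_le _) hρ).trans
        hm)
    have e3 : ∀ P : MvPolynomial (Fin r) ℂ, k * (um w0 ^ m * w) * (e0 * (1 - u)) * P =
        k * (um w0 ^ m * w) * ((1 - u) * (e0 * P)) := fun P => by ring
    unfold Z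
    filter_upwards [h3] with t ht
    have e : act r (k * (um w0 ^ m * w) * (e0 * (1 - u))) (FG fun _ => 1) =
        ∑ ρ ∈ Fintype.piFinset fun _ : Fin r => Rt, (∏ j, c (ρ j)) •
          act r (k * (um w0 ^ m * w) * ((1 - u) * (e0 * ∏ j, dj q G M j))) (FG ρ) := by
      rw [hF, map_sum]
      refine Finset.sum_congr rfl fun ρ _ => ?_
      rw [map_smul, ← act_mul, e3]
    rw [e, gen_sum]
    have h4 := HasReg.sum (Fintype.piFinset fun _ : Fin r => Rt)
      (fun ρ => gen q v ((∏ j, c (ρ j)) • act r (k * (um w0 ^ m * w) *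
        ((1 - u) * (e0 * ∏ j, dj q G M j))) (FG ρ)) ∅ t)
      (fun _ => 0) (fun ρ hρ => by
        rw [gen_smul]
        simpa using (ht ρ hρ).smul (∏ j, c (ρ j)))
    simpa using h4
  -- iteration
  have h2 : ∀ n : ℕ, ∀ w, ∃ m0 : ℕ, ∀ m, m0 ≤ m →
      Z q v (k * (um w0 ^ m * w) * (e0 * (1 - u ^ n))) := by
    intro n
    induction n with
    | zero =>
      intro w
      refine ⟨0, fun m _ => ?_⟩
      simpa using Z.zero q v
    | succ n ih =>
      intro w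
      obtain ⟨m1, hm1⟩ := ih w
      obtain ⟨m2, hm2⟩ := h1 (w * u ^ n)
      refine ⟨max m1 m2, fun m hm => ?_⟩
      have e : k * (um w0 ^ m * w) * (e0 * (1 - u ^ (n + 1))) =
          k * (um w0 ^ m * w) * (e0 * (1 - u ^ n)) +
          k * (um w0 ^ m * (w * u ^ n)) * (e0 * (1 - u)) := by ring
      rw [e]
      exact (hm1 m ((le_max_left _ _).trans hm)).add (hm2 m ((le_max_right _ _).trans hm))
  refine ⟨Q, hQ, ?_⟩
  intro w
  obtain ⟨m0, hm0⟩ := h2 E w
  refine ⟨m0, fun m hm => ?_⟩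
  have e2 : ∀ n, Polynomial.aeval (tau r) ((Polynomial.X - Polynomial.C T0) ^ n) =
      (tau r - C T0) ^ n := by
    intro n
    rw [map_pow, map_sub, Polynomial.aeval_X, Polynomial.aeval_C]
    rfl
  have e : k * (um w0 ^ m * w) * (Polynomial.aeval (tau r) Q * e0) =
      Polynomial.aeval (tau r) Q * (k * (um w0 ^ m * w) * (e0 * (1 - u ^ E))) +
      (k * (um w0 ^ m * w) * e0 * h ^ E) *
        Polynomial.aeval (tau r) ((Polynomial.X - Polynomial.C T0) ^ E * Q) := by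
    rw [map_mul, e2, hu, mul_pow]
    ring
  rw [e]
  exact ((hm0 m hm).poly Q).add (Z.of_I1 hq hQI _)

/-- the terms of `aM` -/
noncomputable def tM (q : ℕ) (v : Fin r → Fin N → ℕ) (e : Finset (Fin r) → ℂ)
    (h : Fin r → ℕ) (m : ℕ) (t : ℤ) (x : Fin N → ℕ) : ℂ := open Classical in
  if (∀ i, 0 < x i) ∧ ∀ j, t ≤ ((∑ i, x i * v j i + m * h j : ℕ) : ℤ) then
    (q : ℂ)⁻¹ ^ (∑ i, x i) *
      e (Finset.univ.filter fun j => ((∑ i, x i * v j i + m * h j : ℕ) : ℤ) = t) else 0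

/-- the multiplier -/
noncomputable def mul0 (q : ℕ) (v : Fin r → Fin N → ℕ) (e : Finset (Fin r) → ℂ)
    (h : Fin r → ℕ) (m : ℕ) : MvPolynomial (Fin r) ℂ :=
  um h ^ m * ((∏ i : Fin N, (C ((q : ℂ)⁻¹) * ∏ j, X j ^ v j i)) * kE e)

lemma coeff_aM (q : ℕ) (v : Fin r → Fin N → ℕ) (e : Finset (Fin r) → ℂ)
    (h : Fin r → ℕ) (m : ℕ) (t : ℤ) (x : Fin N →₀ ℕ) : MvPowerSeries.coeff x
      (gen q v (act r (mul0 q v e h m) (FG fun _ => 1)) ∅ (t + 1)) =
      tM q v e h m t (fun i => x i + 1) := by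
  classical
  unfold mul0
  rw [coeff_gen, if_pos (by simp), act_mul, act_um, act_mul, act_mons, act_kE]
  unfold tM
  have hY : ∀ j, ∑ i, (x i : ℤ) * (v j i : ℤ) - (t + 1) + (m : ℤ) * (h j : ℤ) +
      ∑ i, (v j i : ℤ) = ((∑ i, (x i + 1) * v j i + m * h j : ℕ) : ℤ) - t - 1 := by
    intro j
    push_cast
    simp only [add_mul, Finset.sum_add_distrib, one_mul]
    ring
  have h2 : ∀ j, (∑ i, (x i : ℤ) * (v j i : ℤ) - (t + 1) + (m : ℤ) * (h j : ℤ) +
      ∑ i, (v j i : ℤ) = -1 ↔ ((∑ i, (x i + 1) * v j i + m * h j : ℕ) : ℤ) = t) := by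
    intro j
    rw [hY j]
    constructor <;> intro h <;> linarith
  have h3 : (∀ j, -1 ≤ ∑ i, (x i : ℤ) * (v j i : ℤ) - (t + 1) + (m : ℤ) * (h j : ℤ) +
      ∑ i, (v j i : ℤ)) ↔ ((∀ i : Fin N, 0 < x i + 1) ∧
        ∀ j, t ≤ ((∑ i, (x i + 1) * v j i + m * h j : ℕ) : ℤ)) := by
    constructor
    · intro h
      refine ⟨fun i => Nat.succ_pos _, fun j => ?_⟩
      have := h j
      rw [hY j] at this
      linarith
    · rintro ⟨-, h⟩ j
      rw [hY j]
      have := h j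
      linarith
  have h5 : ∑ i, (x i + 1) = ∑ i, x i + (Finset.univ : Finset (Fin N)).card := by
    rw [Finset.sum_add_distrib]
    simp
  simp only [h2, h3]
  rw [h5, pow_add]
  split_ifs
  · ring
  · ring

lemma norm_tM (q : ℕ) (hq : 2 ≤ q) (v : Fin r → Fin N → ℕ) (e : Finset (Fin r) → ℂ)
    (h : Fin r → ℕ) (m : ℕ) (t : ℤ) (x : Fin N → ℕ) :
    ‖tM q v e h m t x‖ ≤ (∏ i, ((1 : ℝ) / 2) ^ x i) * ∑ J, ‖e J‖ := by
  have hn : 0 ≤ ∑ J, ‖e J‖ := Finset.sum_nonneg fun _ _ => norm_nonneg _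
  unfold tM
  split_ifs
  · rw [norm_mul]
    exact mul_le_mul (norm_pow_inv q hq x)
      (Finset.single_le_sum (f := fun J => ‖e J‖) (fun _ _ => norm_nonneg _) (Finset.mem_univ _))
      (norm_nonneg _) (by positivity)
  · rw [norm_zero]
    exact mul_nonneg (Finset.prod_nonneg fun i _ => by positivity) hn

lemma summable_tM (q : ℕ) (hq : 2 ≤ q) (v : Fin r → Fin N → ℕ) (e : Finset (Fin r) → ℂ)
    (h : Fin r → ℕ) (m : ℕ) (t : ℤ) : Summable fun x : Fin N → ℕ => tM q v e h m t x :=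
  Summable.of_norm_bounded (g := fun x : Fin N → ℕ => (∏ i, ((1 : ℝ) / 2) ^ x i) *
    ∑ J, ‖e J‖) (summable_half.mul_right _) (norm_tM q hq v e h m t)

lemma hasReg_aM (q : ℕ) (hq : 2 ≤ q) (v : Fin r → Fin N → ℕ) (e : Finset (Fin r) → ℂ)
    (h : Fin r → ℕ) (m : ℕ) (t : ℤ) :
    HasReg (gen q v (act r (mul0 q v e h m) (FG fun _ => 1)) ∅ (t + 1)) (aM q v e h m t) := by
  classical
  obtain ⟨c, hc⟩ := (tame_one q hq v (mul0 q v e h m)).reg ∅ (t + 1)
  have hinj : Function.Injective fun x : Fin N →₀ ℕ => (fun i => x i + 1 : Fin N → ℕ) := by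
    intro x y hxy
    ext i
    have := congrFun hxy i
    simp only at this
    omega
  have h1 : (fun x : Fin N →₀ ℕ => MvPowerSeries.coeff x
      (gen q v (act r (mul0 q v e h m) (FG fun _ => 1)) ∅ (t + 1))) =
      fun x : Fin N →₀ ℕ => tM q v e h m t (fun i => x i + 1) :=
    funext fun x => coeff_aM q v e h m t x
  have hfs := summable_tM q hq v e h m t
  have hsum : HasSum (fun x : Fin N →₀ ℕ => tM q v e h m t (fun i => x i + 1))
      (∑' x, tM q v e h m t x) := by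
    have h2 := (hinj.hasSum_iff (f := fun x => tM q v e h m t x)
      (a := ∑' x, tM q v e h m t x) ?_).2 hfs.hasSum
    · exact h2
    · intro x hx
      unfold tM
      rw [if_neg]
      rintro ⟨hpos, -⟩
      apply hx
      refine ⟨Finsupp.equivFunOnFinite.symm fun i => x i - 1, ?_⟩
      funext i
      simp only [Finsupp.equivFunOnFinite_symm_apply_apply]
      have := hpos i
      omega
  have h3 := hc.hasSum (by rw [h1]; exact hsum.summable)
  rw [h1, hsum.tsum_eq] at h3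
  have h4 : aM q v e h m t = c := h3
  rw [h4]
  exact hc

lemma rec_aM (q : ℕ) (hq : 2 ≤ q) (v : Fin r → Fin N → ℕ) (e : Finset (Fin r) → ℂ)
    (h : Fin r → ℕ) (m : ℕ) (Q : Polynomial ℂ)
    (hZ : Z q v (Polynomial.aeval (tau r) Q * mul0 q v e h m)) :
    ∀ᶠ t : ℤ in atTop,
      ∑ k ∈ Finset.range (Q.natDegree + 1), Q.coeff k * aM q v e h m (t - k) = 0 := by
  have h1 : Tendsto (fun t : ℤ => t + 1) atTop atTop :=
    tendsto_atTop_add_const_right _ _ tendsto_id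
  filter_upwards [h1.eventually hZ] with t ht
  have h2 : HasReg (gen q v (act r (Polynomial.aeval (tau r) Q * mul0 q v e h m)
      (FG fun _ => 1)) ∅ (t + 1))
      (∑ k ∈ Finset.range (Q.natDegree + 1), Q.coeff k * aM q v e h m (t - k)) := by
    have h3 : act r (Polynomial.aeval (tau r) Q * mul0 q v e h m) (FG fun _ => 1) =
        ∑ k ∈ Finset.range (Q.natDegree + 1),
          Q.coeff k • act r (tau r ^ k * mul0 q v e h m) (FG fun _ => 1) := by
      rw [Polynomial.aeval_eq_sum_range, Finset.sum_mul, map_sum, LinearMap.sum_apply]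
      refine Finset.sum_congr rfl fun k _ => ?_
      rw [smul_mul_assoc, map_smul, LinearMap.smul_apply]
    rw [h3, gen_sum]
    refine HasReg.sum _ _ _ fun k _ => ?_
    rw [gen_smul, gen_tau_pow]
    refine HasReg.smul _ ?_
    have h4 : t + 1 - (k : ℤ) = (t - k) + 1 := by ring
    rw [h4]
    exact hasReg_aM q hq v e h m (t - k)
  exact (ht.unique h2).symm

theorem t_FAR : S_FAR := by
  intro r N q hq v h p hrel e he T0 hT0 hp
  have hp0 : p ≠ 0 := by
    rintro rfl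
    exact hp Polynomial.eval_zero
  obtain ⟨Q, hQ, hall⟩ := coreFar q hq v p (fun j => -(h j : ℤ)) 0 h (fun j => by ring) hrel _
    (kern_J hq v Finset.univ e he) T0 hT0 hp0
  have h0 : p.rootMultiplicity ((-Real.log ‖T0‖ / Real.log q : ℝ) : ℂ) = 0 :=
    Polynomial.rootMultiplicity_eq_zero hp
  obtain ⟨m0, hm0⟩ := hall 1
  rw [h0, pow_zero, mul_one] at hm0
  refine ⟨Q, hQ, ?_⟩
  filter_upwards [eventually_ge_atTop m0] with m hm
  refine rec_aM q hq v e h m Q ?_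
  have h1 := hm0 m hm
  have h2 : kE e * wJ q v Finset.univ * (um h ^ m * 1) * Polynomial.aeval (tau r) Q =
      Polynomial.aeval (tau r) Q * mul0 q v e h m := by
    unfold wJ mul0
    rw [Finset.compl_univ, Finset.prod_empty]
    ring
  rwa [h2] at h1

end Pool.Agent.Y188.HX
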